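import Pool.Agent.H2.Plot

open FirstOrder FirstOrder.Language

namespace Pool.Agent.Results.MP_9f131e_lc.Counter

/-- A set of identities in the signature `L`. -/
abbrev Ids (L : FirstOrder.Language.{0, 0}) : Type := Set (Σ n : ℕ, L.Term (Fin n) × L.Term (Fin n))

/-- `M` lies in the variety defined by the identities `E`. -/
def InVar {L : FirstOrder.Language.{0, 0}} (E : Ids L) (M : Type) [L.Structure M] : Prop :=
  ∀ e ∈ E, ∀ v : Fin e.1 → M, e.2.1.realize v = e.2.2.realize v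

/-- `F` is a finitely generated free algebra of the variety defined by `E`. -/
def IsFgFree {L : FirstOrder.Language.{0, 0}} (E : Ids L) (F : Type) [L.Structure F] : Prop :=
  InVar E F ∧ ∃ (n : ℕ) (ι : Fin n → F), ∀ (M : Type) [L.Structure M], InVar E M →
    ∀ f : Fin n → M, ∃! h : L.Hom F M, ⇑h ∘ ι = f

/-- Two tuples, possibly in different algebras, satisfy the same first-order formulas. -/
def SameType (L : FirstOrder.Language.{0, 0}) {A B : Type} [L.Structure A] [L.Structure B] {m : ℕ}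
    (a : Fin m → A) (b : Fin m → B) : Prop :=
  ∀ φ : L.Formula (Fin m), φ.Realize a ↔ φ.Realize b

/-- The two algebras realise the same types of finite tuples. -/
def Isotypic (L : FirstOrder.Language.{0, 0}) (A B : Type) [L.Structure A] [L.Structure B] : Prop :=
  ∀ m : ℕ, (∀ a : Fin m → A, ∃ b : Fin m → B, SameType L a b) ∧
    (∀ b : Fin m → B, ∃ a : Fin m → A, SameType L a b)

theorem result : ∃ (L : FirstOrder.Language.{0, 0}) (_ : ∀ n, IsEmpty (L.Relations n)) (E : Ids L)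
    (H₁ H₂ : Type) (_ : L.Structure H₁) (_ : L.Structure H₂),
    IsFgFree E H₁ ∧ IsFgFree E H₂ ∧ Isotypic L H₁ H₂ ∧
    ∃ (m : ℕ) (μ : Fin m → H₁) (ν : Fin m → H₂), SameType L μ ν ∧
      ¬ ∃ σ : L.Equiv H₁ H₂, ⇑σ ∘ μ = ν := by
  have hF : IsFgFree (L := Pool.Agent.H2.Plot.L) Pool.Agent.H2.Plot.E Pool.Agent.H2.Plot.W :=
    ⟨fun e he => he, 1, fun _ => Sum.inl [], fun M _ hM f => Pool.Agent.H2.Plot.W_free hM f⟩
  refine ⟨Pool.Agent.H2.Plot.L, fun _ => (inferInstance : IsEmpty Empty), Pool.Agent.H2.Plot.E,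
    Pool.Agent.H2.Plot.W, Pool.Agent.H2.Plot.W, inferInstance, inferInstance, hF, hF,
    fun m => ⟨fun a => ⟨a, fun _ => Iff.rfl⟩, fun a => ⟨a, fun _ => Iff.rfl⟩⟩,
    1, fun _ => Sum.inr true, fun _ => Sum.inr false,
    fun φ => (Pool.Agent.H2.Plot.same_type φ).symm, ?_⟩
  rintro ⟨s, hs⟩
  exact Pool.Agent.H2.Plot.not_aut s (congrFun hs 0)

end Pool.Agent.Results.MP_9f131e_lc.Counter
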